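import Mathlib

/-!
# Central values over function fields and finitely many places: definitions
-/

set_option autoImplicit false

namespace Pool.Agent.X298.FC

variable {X : Type}

/-- `A_n = ∑_{deg v ∣ n} deg(v) b_v(n / deg v)` -/
noncomputable def traceSum (deg : X → ℕ) (b : X → ℕ → ℂ) (n : ℕ) : ℂ :=
  ∑ᶠ v : {v : X // deg v ∣ n}, (deg v.1 : ℂ) * b v.1 (n / deg v.1)

/-- The certificate `(D - 2 ∑_{1 ≤ n < N} (1 - n / N) q^{-n/2} Re A_n) / N`: a finite sum which involves the places of degree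
less than `N` only. -/
noncomputable def cert (q D : ℕ) (deg : X → ℕ) (b : X → ℕ → ℂ) (N : ℕ) : ℝ :=
  (D - 2 * ∑ n ∈ Finset.Ico 1 N, (1 - (n : ℝ) / N) * ((Real.sqrt q)⁻¹ ^ n * (traceSum deg b n).re)) / N

end Pool.Agent.X298.FC
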