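import Pool.Agent.X298.FC.Main

/-!
# Central values over function fields and finitely many places: an explicit bound for integral coefficients
-/

set_option autoImplicit false

open Filter Topology Polynomial

namespace Pool.Agent.X298.FC

theorem eval_sqrt (P : ℤ[X]) (s : ℂ) (q : ℕ) (hs : s ^ 2 = q) :
    ∃ a b : ℤ, aeval s P = a + b * s ∧ aeval (-s) P = a - b * s := by
  induction P using Polynomial.induction_on' with
  | add P Q hP hQ =>
    obtain ⟨a, b, h1, h2⟩ := hP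
    obtain ⟨c, d, h3, h4⟩ := hQ
    refine ⟨a + c, b + d, ?_, ?_⟩
    · rw [map_add, h1, h3]
      push_cast
      ring
    · rw [map_add, h2, h4]
      push_cast
      ring
  | monomial n c =>
    rcases Nat.even_or_odd' n with ⟨k, hk | hk⟩
    · refine ⟨c * q ^ k, 0, ?_, ?_⟩
      · rw [hk, aeval_monomial, pow_mul, hs]
        simp
      · rw [hk, aeval_monomial, pow_mul, neg_sq, hs]
        simp
    · refine ⟨0, c * q ^ k, ?_, ?_⟩
      · rw [hk, aeval_monomial, pow_succ, pow_mul, hs]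
        push_cast
        simp
        ring
      · rw [hk, aeval_monomial, pow_succ, pow_mul, neg_sq, hs]
        push_cast
        simp
        ring

variable {q D : ℕ} {ω : Fin D → ℂ}

theorem lower (hq : 0 < q) (hω : ∀ j, ‖ω j‖ = 1) (P : ℤ[X])
    (hP : P.map (Int.castRingHom ℂ) = ∏ j, (X - C ((Real.sqrt q : ℂ) * ω j))) (h0 : ∏ j, (1 - ω j) ≠ 0) :
    ((2 * (q : ℝ)) ^ D)⁻¹ ≤ ‖∏ j, (1 - ω j)‖ := by
  set s : ℂ := (Real.sqrt q : ℂ) with hs
  have hq1 : (1 : ℝ) ≤ q := by exact_mod_cast hq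
  have hs2 : s ^ 2 = q := by
    rw [hs, ← Complex.ofReal_pow, Real.sq_sqrt (Nat.cast_nonneg q)]
    simp
  have hns : ‖s‖ = Real.sqrt q := by
    rw [hs, Complex.norm_real, Real.norm_eq_abs, abs_of_nonneg (Real.sqrt_nonneg _)]
  have hs1 : 1 ≤ Real.sqrt q := by rw [Real.one_le_sqrt]; exact hq1
  have hs0 : 0 < Real.sqrt q := by linarith
  have hsq : Real.sqrt q ^ 2 = q := Real.sq_sqrt (Nat.cast_nonneg q)
  have hev : ∀ z : ℂ, aeval z P = ∏ j, (z - s * ω j) := by
    intro z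
    have h1 : aeval z P = eval z (P.map (Int.castRingHom ℂ)) := by
      rw [aeval_def, eval_map]
      rfl
    rw [h1, hP, eval_prod]
    exact Finset.prod_congr rfl fun j _ => by simp
  obtain ⟨a, b, h1, h2⟩ := eval_sqrt P s q hs2
  have hx : aeval s P = s ^ D * ∏ j, (1 - ω j) := by
    rw [hev, ← Fin.prod_const, ← Finset.prod_mul_distrib]
    exact Finset.prod_congr rfl fun j _ => by ring
  have hx' : ‖aeval (-s) P‖ ≤ (2 * Real.sqrt q) ^ D := by
    rw [hev, norm_prod]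
    calc ∏ j, ‖-s - s * ω j‖ ≤ ∏ _j : Fin D, (2 * Real.sqrt q) := by
          refine Finset.prod_le_prod (fun j _ => norm_nonneg _) fun j _ => ?_
          refine (norm_sub_le _ _).trans ?_
          rw [norm_neg, norm_mul, hω, hns]
          linarith
      _ = (2 * Real.sqrt q) ^ D := by simp
  have hnx : ‖aeval s P‖ = Real.sqrt q ^ D * ‖∏ j, (1 - ω j)‖ := by rw [hx, norm_mul, norm_pow, hns]
  have hxne : aeval s P ≠ 0 := by
    rw [hx]
    refine mul_ne_zero (pow_ne_zero _ ?_) h0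
    rw [← norm_ne_zero_iff, hns]
    exact hs0.ne'
  -- the lower bound for `|P(√q)|`
  have hlow : ((2 * Real.sqrt q) ^ D)⁻¹ ≤ ‖aeval s P‖ := by
    by_cases hz : aeval (-s) P = 0
    · -- then `P(√q) = 2 a`
      have h3 : aeval s P = ((2 * a : ℤ) : ℂ) := by
        rw [hz] at h2
        rw [h1]
        push_cast
        linear_combination h2
      have h4 : (2 * a : ℤ) ≠ 0 := by
        intro h5
        rw [h5] at h3
        exact hxne (by simpa using h3)
      have h5 : (1 : ℝ) ≤ ‖aeval s P‖ := by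
        rw [h3, Complex.norm_intCast]
        exact_mod_cast Int.one_le_abs h4
      refine le_trans ?_ h5
      refine inv_le_one_of_one_le₀ (one_le_pow₀ ?_)
      linarith
    · have h3 : aeval s P * aeval (-s) P = ((a ^ 2 - b ^ 2 * q : ℤ) : ℂ) := by
        rw [h1, h2]
        push_cast
        linear_combination -(b : ℂ) ^ 2 * hs2
      have h4 : (a ^ 2 - b ^ 2 * q : ℤ) ≠ 0 := by
        intro h5
        rw [h5] at h3
        simp only [Int.cast_zero] at h3
        exact (mul_ne_zero hxne hz) h3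
      have h5 : (1 : ℝ) ≤ ‖aeval s P‖ * ‖aeval (-s) P‖ := by
        rw [← norm_mul, h3, Complex.norm_intCast]
        exact_mod_cast Int.one_le_abs h4
      have h6 : 0 < (2 * Real.sqrt q) ^ D := by positivity
      rw [inv_le_iff_one_le_mul₀ h6]
      refine h5.trans ?_
      exact mul_le_mul_of_nonneg_left hx' (norm_nonneg _)
  rw [hnx] at hlow
  have h7 : 0 < Real.sqrt q ^ D := by positivity
  have h8 : ((2 * (q : ℝ)) ^ D)⁻¹ = ((2 * Real.sqrt q) ^ D)⁻¹ / Real.sqrt q ^ D := by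
    rw [div_eq_mul_inv, ← mul_inv, ← mul_pow]
    congr 2
    rw [mul_assoc, Real.mul_self_sqrt (Nat.cast_nonneg q)]
  rw [h8, div_le_iff₀ h7]
  linarith

theorem gap (hq : 0 < q) (hω : ∀ j, ‖ω j‖ = 1) (P : ℤ[X])
    (hP : P.map (Int.castRingHom ℂ) = ∏ j, (X - C ((Real.sqrt q : ℂ) * ω j))) (h0 : ∏ j, (1 - ω j) ≠ 0) (j : Fin D) :
    ((4 * (q : ℝ)) ^ D)⁻¹ ≤ ‖1 - ω j‖ := by
  classical
  have h1 := lower hq hω P hP h0
  rw [← Finset.mul_prod_erase Finset.univ _ (Finset.mem_univ j), norm_mul] at h1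
  have hb : ‖∏ i ∈ Finset.univ.erase j, (1 - ω i)‖ ≤ 2 ^ D := by
    rw [norm_prod]
    calc ∏ i ∈ Finset.univ.erase j, ‖1 - ω i‖ ≤ ∏ _i ∈ Finset.univ.erase j, (2 : ℝ) := by
          refine Finset.prod_le_prod (fun i _ => norm_nonneg _) fun i _ => ?_
          refine (norm_sub_le _ _).trans ?_
          rw [hω, norm_one]
          norm_num
      _ = 2 ^ (Finset.univ.erase j).card := by simp
      _ ≤ 2 ^ D := by
          refine pow_le_pow_right₀ (by norm_num) ?_
          refine (Finset.card_le_card (Finset.erase_subset _ _)).trans ?_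
          simp
  have hq0 : (0 : ℝ) < q := by exact_mod_cast hq
  have h2 : ((4 * (q : ℝ)) ^ D)⁻¹ = ((2 * (q : ℝ)) ^ D)⁻¹ / 2 ^ D := by
    rw [div_eq_mul_inv, ← mul_inv, ← mul_pow]
    congr 2
    ring
  rw [h2, div_le_iff₀ (by positivity)]
  refine h1.trans ?_
  exact mul_le_mul_of_nonneg_left hb (norm_nonneg _)

/-- one explicit finite sum decides -/
theorem eff {Y : Type} {deg : Y → ℕ} {b : Y → ℕ → ℂ} (hq : 0 < q) (hω : ∀ j, ‖ω j‖ = 1)
    (hA : ∀ n, 1 ≤ n → traceSum deg b n = -((Real.sqrt q : ℂ) ^ n * ∑ j, ω j ^ n)) (P : ℤ[X])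
    (hP : P.map (Int.castRingHom ℂ) = ∏ j, (X - C ((Real.sqrt q : ℂ) * ω j))) (N : ℕ)
    (hN : 2 * D * (4 * q) ^ D < N) :
    ∏ j, (1 - ω j) ≠ 0 ↔ cert q D deg b N < 1 := by
  have hN1 : 1 ≤ N := by omega
  constructor
  · intro h0
    have h1 := (bounds hq hω hA hN1).2
    have hord : ord ω = 0 := (val_iff ω).mp h0
    rw [hord, Nat.cast_zero, zero_add] at h1
    refine h1.trans_lt ?_
    have hN0 : (0 : ℝ) < N := by exact_mod_cast (by omega : 0 < N)
    have hq0 : (0 : ℝ) < q := by exact_mod_cast hq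
    rw [div_lt_one (by positivity)]
    set Q : ℝ := (4 * (q : ℝ)) ^ D with hQ
    have hQ0 : 0 < Q := by positivity
    have h2 : ∑ j, 4 / ‖1 - ω j‖ ^ 2 ≤ D * (4 * Q ^ 2) := by
      calc ∑ j, 4 / ‖1 - ω j‖ ^ 2 ≤ ∑ _j : Fin D, 4 * Q ^ 2 := by
            refine Finset.sum_le_sum fun j _ => ?_
            have h3 := gap hq hω P hP h0 j
            have h4 : 0 < Q⁻¹ := by positivity
            calc 4 / ‖1 - ω j‖ ^ 2 ≤ 4 / (Q⁻¹) ^ 2 := by gcongr
              _ = 4 * Q ^ 2 := by field_simp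
        _ = D * (4 * Q ^ 2) := by simp
    refine h2.trans_lt ?_
    have h5 : 2 * (D : ℝ) * Q < N := by
      rw [hQ]
      exact_mod_cast hN
    have hD : (D : ℝ) ≤ (D : ℝ) ^ 2 := by
      rcases Nat.eq_zero_or_pos D with h | h
      · rw [h]; simp
      · have : (1 : ℝ) ≤ D := by exact_mod_cast h
        nlinarith
    calc (D : ℝ) * (4 * Q ^ 2) ≤ (D : ℝ) ^ 2 * (4 * Q ^ 2) := by gcongr
      _ = (2 * D * Q) ^ 2 := by ring
      _ < (N : ℝ) ^ 2 := by
          apply pow_lt_pow_left₀ h5 (by positivity) two_ne_zero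
  · intro h
    exact (crit hq hω hA).1.mpr ⟨N, hN1, h⟩

end Pool.Agent.X298.FC
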