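import Pool.Agent.X298.FC.Main

/-!
# Central values over function fields and finitely many places: families
-/

set_option autoImplicit false

open Filter Topology

namespace Pool.Agent.X298.FC

variable {Y : Type} {q D : ℕ} {deg : Y → ℕ} {I : Type} [Fintype I] {b : I → Y → ℕ → ℂ} {ω : I → Fin D → ℂ}

theorem traceSum_sum (hfin : ∀ n, 1 ≤ n → {v | deg v ∣ n}.Finite) {n : ℕ} (hn : 1 ≤ n) :
    traceSum deg (fun v k => ∑ i, b i v k) n = ∑ i, traceSum deg (b i) n := by
  have : Finite {v : Y // deg v ∣ n} := (hfin n hn)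
  have : Fintype {v : Y // deg v ∣ n} := Fintype.ofFinite _
  unfold traceSum
  simp only [finsum_eq_sum_of_fintype]
  rw [Finset.sum_comm]
  exact Finset.sum_congr rfl fun v _ => by rw [Finset.mul_sum]

/-- the certificate of the family depends on the total traces only -/
theorem cert_sum (hfin : ∀ n, 1 ≤ n → {v | deg v ∣ n}.Finite) (N : ℕ) :
    cert q (Fintype.card I * D) deg (fun v k => ∑ i, b i v k) N = ∑ i, cert q D deg (b i) N := by
  unfold cert
  rw [← Finset.sum_div, Finset.sum_sub_distrib, Finset.sum_const, Finset.card_univ, nsmul_eq_mul, ← Finset.mul_sum,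
    Finset.sum_comm]
  congr 1
  push_cast
  congr 2
  refine Finset.sum_congr rfl fun n hn => ?_
  rw [Finset.mem_Ico] at hn
  rw [traceSum_sum hfin hn.1, Complex.re_sum, ← Finset.mul_sum, ← Finset.mul_sum]

theorem family (hq : 0 < q) (hfin : ∀ n, 1 ≤ n → {v | deg v ∣ n}.Finite) (hω : ∀ i j, ‖ω i j‖ = 1)
    (hA : ∀ i n, 1 ≤ n → traceSum deg (b i) n = -((Real.sqrt q : ℂ) ^ n * ∑ j, ω i j ^ n)) {N : ℕ} (hN : 1 ≤ N) :
    (Nat.card {i // ∏ j, (1 - ω i j) = 0} : ℝ) ≤
        cert q (Fintype.card I * D) deg (fun v k => ∑ i, b i v k) N ∧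
      ((∀ i, Even (ord (ω i))) → 2 * (Nat.card {i // ∏ j, (1 - ω i j) = 0} : ℝ) ≤
        cert q (Fintype.card I * D) deg (fun v k => ∑ i, b i v k) N) := by
  classical
  have h1 : ∀ i, (ord (ω i) : ℝ) ≤ cert q D deg (b i) N := fun i => (bounds hq (hω i) (hA i) hN).1
  have hcard : (Nat.card {i // ∏ j, (1 - ω i j) = 0} : ℝ) = ∑ i, if ∏ j, (1 - ω i j) = 0 then 1 else 0 := by
    rw [Nat.card_eq_fintype_card, Fintype.card_subtype]
    simp
  have hne : ∀ i, ∏ j, (1 - ω i j) = 0 → ord (ω i) ≠ 0 := fun i h0 h => ((val_iff (ω i)).mpr h) h0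
  rw [cert_sum hfin, hcard]
  constructor
  · refine Finset.sum_le_sum fun i _ => ?_
    refine le_trans ?_ (h1 i)
    split_ifs with h
    · have := Nat.one_le_iff_ne_zero.mpr (hne i h)
      exact_mod_cast this
    · positivity
  · intro hev
    rw [Finset.mul_sum]
    refine Finset.sum_le_sum fun i _ => ?_
    refine le_trans ?_ (h1 i)
    split_ifs with h
    · obtain ⟨k, hk⟩ := hev i
      have h2 := hne i h
      have h3 : 2 ≤ ord (ω i) := by omega
      rw [mul_one]
      exact_mod_cast h3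
    · rw [mul_zero]; positivity

end Pool.Agent.X298.FC
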