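import Pool.Agent.X298.FC.Defs

/-!
# Central values over function fields and finitely many places
-/

set_option autoImplicit false

open Filter Topology

namespace Pool.Agent.X298.FC

/-- Fejér's identity -/
theorem fejer (ω : ℂ) (hω : ‖ω‖ = 1) (N : ℕ) :
    ‖∑ k ∈ Finset.range N, ω ^ k‖ ^ 2 = 2 * ∑ n ∈ Finset.range N, ((N : ℝ) - n) * (ω ^ n).re - N := by
  induction N with
  | zero => simp
  | succ N ih =>
    have h1 : ‖∑ k ∈ Finset.range (N + 1), ω ^ k‖ ^ 2 = ‖∑ k ∈ Finset.range N, ω ^ k‖ ^ 2 + 1 +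
        2 * ((∑ k ∈ Finset.range N, ω ^ k) * (starRingEnd ℂ) (ω ^ N)).re := by
      rw [Finset.sum_range_succ, ← Complex.normSq_eq_norm_sq, ← Complex.normSq_eq_norm_sq, Complex.normSq_add,
        Complex.normSq_eq_norm_sq (ω ^ N), norm_pow, hω, one_pow, one_pow]
    have h2 : ((∑ k ∈ Finset.range N, ω ^ k) * (starRingEnd ℂ) (ω ^ N)).re =
        ∑ n ∈ Finset.range N, (ω ^ (n + 1)).re := by
      rw [Finset.sum_mul, Complex.re_sum, ← Finset.sum_range_reflect]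
      refine Finset.sum_congr rfl fun k hk => ?_
      have hk' : k < N := Finset.mem_range.mp hk
      have hωω : ω * (starRingEnd ℂ) ω = 1 := by
        rw [Complex.mul_conj, Complex.normSq_eq_norm_sq, hω]
        simp
      have e1 : ω ^ (N - 1 - k) * (starRingEnd ℂ) (ω ^ N) = (starRingEnd ℂ) (ω ^ (k + 1)) := by
        have e2 : N = (N - 1 - k) + (k + 1) := by omega
        conv_lhs => rw [e2]
        have e3 : N - 1 - k + (k + 1) - 1 - k = N - 1 - k := by omega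
        rw [e3, map_pow, pow_add, ← mul_assoc, ← mul_pow, hωω, one_pow, one_mul, map_pow]
      rw [e1, Complex.conj_re]
    have h3 : ∑ n ∈ Finset.range (N + 1), (((N + 1 : ℕ) : ℝ) - n) * (ω ^ n).re =
        ∑ n ∈ Finset.range N, ((N : ℝ) - n) * (ω ^ n).re + ∑ n ∈ Finset.range (N + 1), (ω ^ n).re := by
      rw [Finset.sum_range_succ, Finset.sum_range_succ (fun n => (ω ^ n).re), ← add_assoc, ← Finset.sum_add_distrib]
      congr 1
      · refine Finset.sum_congr rfl fun n _ => ?_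
        push_cast
        ring
      · push_cast
        ring
    have h4 : ∑ n ∈ Finset.range (N + 1), (ω ^ n).re = ∑ n ∈ Finset.range N, (ω ^ (n + 1)).re + 1 := by
      rw [Finset.sum_range_succ']
      simp
    rw [h1, h2, ih, h3, h4]
    push_cast
    ring

variable {X : Type} {q D : ℕ} {deg : X → ℕ} {b : X → ℕ → ℂ} {ω : Fin D → ℂ}

theorem cert_eq (hq : 0 < q) (hω : ∀ j, ‖ω j‖ = 1)
    (hA : ∀ n, 1 ≤ n → traceSum deg b n = -((Real.sqrt q : ℂ) ^ n * ∑ j, ω j ^ n)) {N : ℕ} (hN : 1 ≤ N) :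
    cert q D deg b N = ∑ j, ‖∑ k ∈ Finset.range N, ω j ^ k‖ ^ 2 / (N : ℝ) ^ 2 := by
  have hN0 : (N : ℝ) ≠ 0 := by exact_mod_cast (by omega : N ≠ 0)
  have hsq : Real.sqrt q ≠ 0 := (Real.sqrt_pos.mpr (by exact_mod_cast hq)).ne'
  have h1 : ∀ n ∈ Finset.Ico 1 N, (1 - (n : ℝ) / N) * ((Real.sqrt q)⁻¹ ^ n * (traceSum deg b n).re) =
      -(∑ j, ((N : ℝ) - n) * (ω j ^ n).re) / N := by
    intro n hn
    rw [Finset.mem_Ico] at hn
    rw [hA n hn.1, Complex.neg_re, ← Complex.ofReal_pow, Complex.re_ofReal_mul, Complex.re_sum, ← Finset.mul_sum]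
    have e1 : (Real.sqrt q)⁻¹ ^ n * (Real.sqrt q) ^ n = 1 := by
      rw [← mul_pow, inv_mul_cancel₀ hsq, one_pow]
    have e2 : (1 - (n : ℝ) / N) = ((N : ℝ) - n) / N := by field_simp
    rw [e2]
    calc ((N : ℝ) - n) / N * ((Real.sqrt q)⁻¹ ^ n * -((Real.sqrt q) ^ n * ∑ j, (ω j ^ n).re))
        = -(((N : ℝ) - n) / N * (((Real.sqrt q)⁻¹ ^ n * (Real.sqrt q) ^ n) * ∑ j, (ω j ^ n).re)) := by ring
      _ = -(((N : ℝ) - n) * ∑ j, (ω j ^ n).re) / N := by rw [e1]; ring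
  unfold cert
  rw [Finset.sum_congr rfl h1]
  have h2 : ∀ j, ‖∑ k ∈ Finset.range N, ω j ^ k‖ ^ 2 =
      N + 2 * ∑ n ∈ Finset.Ico 1 N, ((N : ℝ) - n) * (ω j ^ n).re := by
    intro j
    rw [fejer (ω j) (hω j) N, Finset.range_eq_Ico, Finset.sum_eq_sum_Ico_succ_bot (by omega : 0 < N)]
    simp only [pow_zero, Complex.one_re, mul_one, Nat.cast_zero, sub_zero]
    ring
  have h3 : ∑ j, ‖∑ k ∈ Finset.range N, ω j ^ k‖ ^ 2 =
      N * D + 2 * ∑ n ∈ Finset.Ico 1 N, ∑ j, ((N : ℝ) - n) * (ω j ^ n).re := by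
    rw [Finset.sum_congr rfl fun j _ => h2 j, Finset.sum_add_distrib, ← Finset.mul_sum, Finset.sum_comm]
    simp
    ring
  have h5 : ∑ j, ‖∑ k ∈ Finset.range N, ω j ^ k‖ ^ 2 / (N : ℝ) ^ 2 =
      (∑ j, ‖∑ k ∈ Finset.range N, ω j ^ k‖ ^ 2) / (N : ℝ) ^ 2 := by rw [Finset.sum_div]
  rw [h5, h3, ← Finset.sum_div, Finset.sum_neg_distrib]
  field_simp
  ring

/-- the order of vanishing -/
noncomputable def ord (ω : Fin D → ℂ) : ℕ := Nat.card {j // ω j = 1}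

theorem ord_eq (ω : Fin D → ℂ) : (ord ω : ℝ) = ∑ j, if ω j = 1 then 1 else 0 := by
  classical
  unfold ord
  rw [Nat.card_eq_fintype_card, Fintype.card_subtype]
  simp

theorem term_one {ω₀ : ℂ} (h : ω₀ = 1) {N : ℕ} (hN : 1 ≤ N) :
    ‖∑ k ∈ Finset.range N, ω₀ ^ k‖ ^ 2 / (N : ℝ) ^ 2 = 1 := by
  have hN0 : (N : ℝ) ≠ 0 := by exact_mod_cast (by omega : N ≠ 0)
  rw [h]
  simp only [one_pow, Finset.sum_const, Finset.card_range, nsmul_eq_mul, mul_one, Complex.norm_natCast]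
  exact div_self (pow_ne_zero 2 hN0)

theorem term_le {ω₀ : ℂ} (h : ω₀ ≠ 1) (hω : ‖ω₀‖ = 1) {N : ℕ} (hN : 1 ≤ N) :
    ‖∑ k ∈ Finset.range N, ω₀ ^ k‖ ^ 2 / (N : ℝ) ^ 2 ≤ 4 / ‖1 - ω₀‖ ^ 2 / (N : ℝ) ^ 2 := by
  have hN0 : (0 : ℝ) < N := by exact_mod_cast (by omega : 0 < N)
  have h0 : ω₀ - 1 ≠ 0 := sub_ne_zero.mpr h
  have h1 : ‖∑ k ∈ Finset.range N, ω₀ ^ k‖ = ‖ω₀ ^ N - 1‖ / ‖1 - ω₀‖ := by
    rw [geom_sum_eq h, norm_div, norm_sub_rev ω₀ 1]
  have h2 : ‖ω₀ ^ N - 1‖ ≤ 2 := by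
    refine (norm_sub_le _ _).trans ?_
    rw [norm_pow, hω, one_pow, norm_one]
    norm_num
  rw [h1, div_pow]
  gcongr
  calc ‖ω₀ ^ N - 1‖ ^ 2 ≤ 2 ^ 2 := by gcongr
    _ = 4 := by norm_num

theorem bounds (hq : 0 < q) (hω : ∀ j, ‖ω j‖ = 1)
    (hA : ∀ n, 1 ≤ n → traceSum deg b n = -((Real.sqrt q : ℂ) ^ n * ∑ j, ω j ^ n)) {N : ℕ} (hN : 1 ≤ N) :
    (ord ω : ℝ) ≤ cert q D deg b N ∧
      cert q D deg b N ≤ ord ω + (∑ j, 4 / ‖1 - ω j‖ ^ 2) / (N : ℝ) ^ 2 := by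
  classical
  rw [cert_eq hq hω hA hN, ord_eq]
  constructor
  · refine Finset.sum_le_sum fun j _ => ?_
    split_ifs with h
    · rw [term_one h hN]
    · positivity
  · rw [Finset.sum_div, ← Finset.sum_add_distrib]
    refine Finset.sum_le_sum fun j _ => ?_
    split_ifs with h
    · rw [term_one h hN]
      have : (0 : ℝ) ≤ 4 / ‖1 - ω j‖ ^ 2 / (N : ℝ) ^ 2 := by positivity
      linarith
    · rw [zero_add]
      exact term_le h (hω j) hN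

theorem tends (hq : 0 < q) (hω : ∀ j, ‖ω j‖ = 1)
    (hA : ∀ n, 1 ≤ n → traceSum deg b n = -((Real.sqrt q : ℂ) ^ n * ∑ j, ω j ^ n)) :
    Tendsto (fun N : ℕ => cert q D deg b N) atTop (𝓝 (ord ω : ℝ)) := by
  have h1 : Tendsto (fun N : ℕ => (ord ω : ℝ) + (∑ j, 4 / ‖1 - ω j‖ ^ 2) / (N : ℝ) ^ 2) atTop
      (𝓝 ((ord ω : ℝ) + 0)) := by
    refine tendsto_const_nhds.add (tendsto_const_nhds.div_atTop ?_)
    exact (tendsto_pow_atTop (two_ne_zero)).comp tendsto_natCast_atTop_atTop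
  rw [add_zero] at h1
  refine tendsto_of_tendsto_of_tendsto_of_le_of_le' tendsto_const_nhds h1 ?_ ?_
  · filter_upwards [eventually_ge_atTop 1] with N hN
    exact (bounds hq hω hA hN).1
  · filter_upwards [eventually_ge_atTop 1] with N hN
    exact (bounds hq hω hA hN).2

theorem val_iff (ω : Fin D → ℂ) : ∏ j, (1 - ω j) ≠ 0 ↔ ord ω = 0 := by
  classical
  rw [Finset.prod_ne_zero_iff]
  unfold ord
  rw [Nat.card_eq_fintype_card, Fintype.card_eq_zero_iff, isEmpty_subtype]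
  constructor
  · intro h j hj
    exact h j (Finset.mem_univ j) (by rw [hj, sub_self])
  · intro h j _ h0
    exact h j (sub_eq_zero.mp h0).symm

theorem crit (hq : 0 < q) (hω : ∀ j, ‖ω j‖ = 1)
    (hA : ∀ n, 1 ≤ n → traceSum deg b n = -((Real.sqrt q : ℂ) ^ n * ∑ j, ω j ^ n)) :
    (∏ j, (1 - ω j) ≠ 0 ↔ ∃ N, 1 ≤ N ∧ cert q D deg b N < 1) ∧
      (Even (ord ω) → (∏ j, (1 - ω j) ≠ 0 ↔ ∃ N, 1 ≤ N ∧ cert q D deg b N < 2)) := by
  have hlim := tends hq hω hA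
  have key : ∀ c : ℝ, 0 < c → ord ω = 0 → ∃ N, 1 ≤ N ∧ cert q D deg b N < c := by
    intro c hc h0
    rw [h0, Nat.cast_zero] at hlim
    obtain ⟨N, h1, h2⟩ := ((hlim.eventually_lt_const hc).and (eventually_ge_atTop 1)).exists
    exact ⟨N, h2, h1⟩
  rw [val_iff]
  constructor
  · refine ⟨key 1 one_pos, ?_⟩
    rintro ⟨N, hN, h1⟩
    have h2 := (bounds hq hω hA hN).1.trans_lt h1
    have : ord ω < 1 := by exact_mod_cast h2
    omega
  · intro hev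
    refine ⟨key 2 two_pos, ?_⟩
    rintro ⟨N, hN, h1⟩
    have h2 := (bounds hq hω hA hN).1.trans_lt h1
    have h3 : ord ω < 2 := by exact_mod_cast h2
    obtain ⟨k, hk⟩ := hev
    omega

end Pool.Agent.X298.FC
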